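import Pool.Agent.Lib.FW.SpecH

/-!
FW, part H, module HCyc: modulo 1 + X + .. + X^(p-1) the elements p and (X - 1)^(p-1) are multiples of each other.
-/

open scoped Pointwise NumberField

noncomputable section

namespace Pool.Agent.FW

open Pool.Agent.MuZ

theorem tHCyc : S_HCyc := by
  intro p hp
  have hfact : Fact p.Prime := ⟨hp⟩
  set Φ : Polynomial ℤ := ∑ i ∈ Finset.range p, (Polynomial.X : Polynomial ℤ) ^ i with hΦ
  have hp1 : p - 1 + 1 = p := Nat.sub_add_cancel hp.one_lt.le
  -- step 1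
  have h1 : ∃ V : Polynomial ℤ, (Polynomial.X - 1 : Polynomial ℤ) ^ (p - 1) = Φ + Polynomial.C (p : ℤ) * V := by
    have hd : Polynomial.C (p : ℤ) ∣ (Polynomial.X - 1 : Polynomial ℤ) ^ (p - 1) - Φ := by
      rw [Polynomial.C_dvd_iff_dvd_coeff]
      intro i
      have hmap : ((Polynomial.X - 1 : Polynomial ℤ) ^ (p - 1) - Φ).map (Int.castRingHom (ZMod p)) = 0 := by
        have hne : (Polynomial.X - 1 : Polynomial (ZMod p)) ≠ 0 := by
          have := Polynomial.X_sub_C_ne_zero (1 : ZMod p)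
          rwa [map_one] at this
        have e1 : ((Polynomial.X - 1 : Polynomial ℤ) ^ (p - 1) - Φ).map (Int.castRingHom (ZMod p)) =
            (Polynomial.X - 1) ^ (p - 1) - ∑ i ∈ Finset.range p, (Polynomial.X : Polynomial (ZMod p)) ^ i := by
          rw [hΦ, Polynomial.map_sub, Polynomial.map_pow, Polynomial.map_sub, Polynomial.map_X, Polynomial.map_one,
            Polynomial.map_sum]
          simp only [Polynomial.map_pow, Polynomial.map_X]
        rw [e1]
        apply mul_right_cancel₀ hne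
        rw [zero_mul, sub_mul, geom_sum_mul, ← pow_succ, hp1, sub_pow_char, one_pow, sub_self]
      have h2 := congrArg (fun P => Polynomial.coeff P i) hmap
      simp only [Polynomial.coeff_map, Polynomial.coeff_zero] at h2
      exact (ZMod.intCast_zmod_eq_zero_iff_dvd _ p).1 h2
    obtain ⟨V, hV⟩ := hd
    exact ⟨V, by rw [← hV]; ring⟩
  obtain ⟨V, hV⟩ := h1
  -- step 2
  have hV1 : V.eval 1 = -1 := by
    have h2 := congrArg (Polynomial.eval (1 : ℤ)) hV
    rw [Polynomial.eval_pow, Polynomial.eval_sub, Polynomial.eval_X, Polynomial.eval_one, sub_self,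
      zero_pow (by have := hp.two_le; omega), Polynomial.eval_add, Polynomial.eval_mul, Polynomial.eval_C, hΦ,
      Polynomial.eval_finsetSum] at h2
    simp only [Polynomial.eval_pow, Polynomial.eval_X, one_pow, Finset.sum_const, Finset.card_range, nsmul_eq_mul,
      mul_one] at h2
    have hp0 : (p : ℤ) ≠ 0 := by exact_mod_cast hp.ne_zero
    apply mul_left_cancel₀ hp0
    linarith
  obtain ⟨W, hW⟩ : (Polynomial.X - Polynomial.C (1 : ℤ)) ∣ (V + 1) := by
    rw [Polynomial.dvd_iff_isRoot, Polynomial.IsRoot.def, Polynomial.eval_add, hV1, Polynomial.eval_one]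
    norm_num
  rw [map_one] at hW
  have hV2 : V = -1 + (Polynomial.X - 1) * W := by rw [← hW]; ring
  set y : Polynomial ℤ := (Polynomial.X - 1) * W with hy
  set S : Polynomial ℤ := ∑ i ∈ Finset.range (p - 1), y ^ i with hS
  have hgs : S * (y - 1) = y ^ (p - 1) - 1 := geom_sum_mul y (p - 1)
  refine ⟨Polynomial.C (p : ℤ) * W ^ (p - 1) - S, V, ⟨S, ?_⟩, ⟨1, ?_⟩⟩
  · have h3 : S * (Polynomial.X - 1 : Polynomial ℤ) ^ (p - 1) = Φ * S + Polynomial.C (p : ℤ) * (y ^ (p - 1) - 1) := by
      rw [hV, hV2, ← hgs]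
      ring
    have h4 : y ^ (p - 1) = (Polynomial.X - 1) ^ (p - 1) * W ^ (p - 1) := by rw [hy, mul_pow]
    have h5 : (Polynomial.C (p : ℤ) * W ^ (p - 1) - S) * (Polynomial.X - 1) ^ (p - 1) =
        Polynomial.C (p : ℤ) * y ^ (p - 1) - S * (Polynomial.X - 1) ^ (p - 1) := by
      rw [h4]
      ring
    rw [h5, h3]
    ring
  · rw [hV]
    ring

end Pool.Agent.FW
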