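import Pool.Agent.Lib.FW.SpecH

open scoped Pointwise NumberField

noncomputable section

namespace Pool.Agent.FW

open Pool.Agent.MuZ

private lemma unMap_apply {K L : Type} [Field K] [Field L] [Algebra K L] (s : Gal(L/K))
    (x : Additive (𝓞 L)ˣ) :
    (((Additive.toMul (unMap s x) : (𝓞 L)ˣ) : 𝓞 L) : L) =
      s (((Additive.toMul x : (𝓞 L)ˣ) : 𝓞 L) : L) := rfl

/-- an algebraic integer of L fixed by the generator comes from K -/
private lemma fixed_int {K L : Type} [Field K] [NumberField K] [Field L] [NumberField L]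
    [Algebra K L] [IsGalois K L] (s : Gal(L/K)) (hs : ∀ g : Gal(L/K), g ∈ Subgroup.zpowers s)
    (x : 𝓞 L) (hx : s (x : L) = (x : L)) : ∃ y : 𝓞 K, algebraMap (𝓞 K) (𝓞 L) y = x := by
  have hall : ∀ g : Gal(L/K), g (x : L) = (x : L) := by
    intro g
    have hst : s ∈ MulAction.stabilizer (Gal(L/K)) (x : L) := by
      rw [MulAction.mem_stabilizer_iff]
      exact hx
    have hle : Subgroup.zpowers s ≤ MulAction.stabilizer (Gal(L/K)) (x : L) := by
      rw [Subgroup.zpowers_le]
      exact hst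
    exact MulAction.mem_stabilizer_iff.mp (hle (hs g))
  obtain ⟨y, hy⟩ := (IsGalois.mem_range_algebraMap_iff_fixed (F := K) (x : L)).mpr hall
  have hint : IsIntegral ℤ y := by
    have h1 : IsIntegral ℤ (algebraMap K L y) := by
      rw [hy]; exact x.2
    exact (isIntegral_algebraMap_iff (algebraMap K L).injective).mp h1
  refine ⟨⟨y, hint⟩, ?_⟩
  apply NumberField.RingOfIntegers.ext
  exact hy

theorem tHFx : S_HFx := by
  intro K L _ _ _ _ _ _ s hs
  let f : Additive (𝓞 K)ˣ →+ Additive (𝓞 L)ˣ :=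
    MonoidHom.toAdditive (Units.map (algebraMap (𝓞 K) (𝓞 L) : 𝓞 K →* 𝓞 L))
  have hinj0 : Function.Injective (algebraMap (𝓞 K) (𝓞 L)) :=
    NumberField.RingOfIntegers.algebraMap.injective K L
  have hinj : Function.Injective f := by
    intro a b hab
    have h1 : Units.map (algebraMap (𝓞 K) (𝓞 L) : 𝓞 K →* 𝓞 L) (Additive.toMul a) =
      Units.map (algebraMap (𝓞 K) (𝓞 L) : 𝓞 K →* 𝓞 L) (Additive.toMul b) := hab
    have h2 := Units.map_injective (f := (algebraMap (𝓞 K) (𝓞 L) : 𝓞 K →* 𝓞 L)) hinj0 h1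
    exact h2
  have hrange : f.range = (unMap s - AddMonoidHom.id (Additive (𝓞 L)ˣ)).ker := by
    ext x
    rw [AddMonoidHom.mem_range, AddMonoidHom.mem_ker, AddMonoidHom.sub_apply,
      AddMonoidHom.id_apply, sub_eq_zero]
    constructor
    · rintro ⟨y, rfl⟩
      apply Additive.toMul.injective
      apply Units.ext
      apply NumberField.RingOfIntegers.ext
      rw [unMap_apply]
      exact s.commutes _
    · intro hx
      have h1 : s (((Additive.toMul x : (𝓞 L)ˣ) : 𝓞 L) : L) =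
          (((Additive.toMul x : (𝓞 L)ˣ) : 𝓞 L) : L) := by
        rw [← unMap_apply, hx]
      have h2 : s ((((Additive.toMul x)⁻¹ : (𝓞 L)ˣ) : 𝓞 L) : L) =
          ((((Additive.toMul x)⁻¹ : (𝓞 L)ˣ) : 𝓞 L) : L) := by
        have h3 : (((Additive.toMul x : (𝓞 L)ˣ) : 𝓞 L) : L) *
            ((((Additive.toMul x)⁻¹ : (𝓞 L)ˣ) : 𝓞 L) : L) = 1 := by
          rw [← map_mul, Units.mul_inv, map_one]
        have h4 : (((Additive.toMul x : (𝓞 L)ˣ) : 𝓞 L) : L) *
            s ((((Additive.toMul x)⁻¹ : (𝓞 L)ˣ) : 𝓞 L) : L) = 1 := by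
          have h5 := congrArg s h3
          rw [map_mul, h1, map_one] at h5
          exact h5
        have h6 : (((Additive.toMul x : (𝓞 L)ˣ) : 𝓞 L) : L) ≠ 0 := left_ne_zero_of_mul_eq_one h3
        exact mul_left_cancel₀ h6 (h4.trans h3.symm)
      obtain ⟨a, ha⟩ := fixed_int s hs _ h1
      obtain ⟨b, hb⟩ := fixed_int s hs _ h2
      have hab : a * b = 1 := by
        apply hinj0
        rw [map_mul, ha, hb, Units.mul_inv, map_one]
      refine ⟨Additive.ofMul ⟨a, b, hab, by rw [mul_comm]; exact hab⟩, ?_⟩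
      apply Additive.toMul.injective
      apply Units.ext
      exact ha
  have e : Additive (𝓞 K)ˣ ≃+ f.range := AddMonoidHom.ofInjective hinj
  have h := LinearEquiv.finrank_eq e.toIntLinearEquiv
  rw [h, hrange]

end Pool.Agent.FW
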