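import Pool.Agent.Lib.FW.SpecH

/-!
# Part H: the module over the cyclotomic integers
-/

open scoped Pointwise NumberField

noncomputable section

namespace Pool.Agent.FW

open Pool.Agent.MuZ

open Polynomial in
/-- the two identities in the ring of endomorphisms -/
private theorem hlem_rel (hC : S_HCyc) {A : Type} [AddCommGroup A] {p : ℕ} (hp : p.Prime)
    (s : AddMonoid.End A) (hs : ∑ i ∈ Finset.range p, s ^ i = 0) :
    ∃ u v : AddMonoid.End A, (p : AddMonoid.End A) = u * (s - 1) ^ (p - 1) ∧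
      (s - 1) ^ (p - 1) = v * (p : AddMonoid.End A) ∧ Commute u ((s - 1) ^ (p - 1)) := by
  obtain ⟨U, V, ⟨a, ha⟩, ⟨b, hb⟩⟩ := hC p hp
  have hPhi : aeval s (∑ i ∈ Finset.range p, (X : ℤ[X]) ^ i) = 0 := by
    rw [map_sum, ← hs]
    refine Finset.sum_congr rfl fun i _ => ?_
    rw [map_pow, aeval_X]
  have h1 := congrArg (aeval s) ha
  have h2 := congrArg (aeval s) hb
  rw [map_mul, hPhi, zero_mul, map_sub, map_mul, map_pow, map_sub, aeval_X, map_one, aeval_C,
    sub_eq_zero] at h1 h2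
  refine ⟨aeval s U, aeval s V, ?_, ?_, ?_⟩
  · rw [← h1]
    simp
  · rw [h2]
    simp
  · have : (s - 1) ^ (p - 1) = aeval s ((X - 1 : ℤ[X]) ^ (p - 1)) := by
      rw [map_pow, map_sub, aeval_X, map_one]
    rw [this]
    exact (Commute.all U _).map (aeval s)

/-- the quotients of the powers -/
private theorem hlem_pow (hQm : S_HQm) {A : Type} [AddCommGroup A] (φ : AddMonoid.End A)
    (h1 : (φ : A →+ A).range.FiniteIndex) (h2 : Finite (φ : A →+ A).ker) (n : ℕ) :
    ((φ ^ n : AddMonoid.End A) : A →+ A).range.FiniteIndex ∧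
      Finite ((φ ^ n : AddMonoid.End A) : A →+ A).ker ∧
      ((φ ^ n : AddMonoid.End A) : A →+ A).range.index * Nat.card (φ : A →+ A).ker ^ n =
        (φ : A →+ A).range.index ^ n * Nat.card ((φ ^ n : AddMonoid.End A) : A →+ A).ker := by
  induction n with
  | zero =>
    have e1 : ((φ ^ 0 : AddMonoid.End A) : A →+ A).range = ⊤ :=
      AddMonoidHom.range_eq_top.2 fun x => ⟨x, rfl⟩
    have e2 : ((φ ^ 0 : AddMonoid.End A) : A →+ A).ker = ⊥ :=
      (AddMonoidHom.ker_eq_bot_iff _).2 fun x y h => h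
    rw [e1, e2]
    refine ⟨inferInstance, inferInstance, ?_⟩
    rw [AddSubgroup.index_top, pow_zero, pow_zero, AddSubgroup.card_bot]
  | succ n ih =>
    obtain ⟨i1, i2, i3⟩ := ih
    obtain ⟨q1, q2, q3⟩ := hQm A (φ ^ n : AddMonoid.End A) φ i1 h1 i2 h2
    have e : ((φ ^ (n + 1) : AddMonoid.End A) : A →+ A) =
        AddMonoidHom.comp (φ ^ n : AddMonoid.End A) φ := by
      rw [pow_succ]; rfl
    rw [e]
    refine ⟨q1, q2, ?_⟩
    have hpos : 0 < Nat.card ((φ ^ n : AddMonoid.End A) : A →+ A).ker := Nat.card_pos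
    refine Nat.eq_of_mul_eq_mul_left hpos ?_
    calc Nat.card ((φ ^ n : AddMonoid.End A) : A →+ A).ker *
          ((AddMonoidHom.comp (φ ^ n : AddMonoid.End A) φ).range.index *
            Nat.card (φ : A →+ A).ker ^ (n + 1))
        = ((AddMonoidHom.comp (φ ^ n : AddMonoid.End A) φ).range.index *
            (Nat.card ((φ ^ n : AddMonoid.End A) : A →+ A).ker * Nat.card (φ : A →+ A).ker)) *
            Nat.card (φ : A →+ A).ker ^ n := by ring
      _ = (((φ ^ n : AddMonoid.End A) : A →+ A).range.index * Nat.card (φ : A →+ A).ker ^ n) *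
            ((φ : A →+ A).range.index *
              Nat.card (AddMonoidHom.comp (φ ^ n : AddMonoid.End A) φ).ker) := by
          rw [q3]; ring
      _ = Nat.card ((φ ^ n : AddMonoid.End A) : A →+ A).ker *
          ((φ : A →+ A).range.index ^ (n + 1) *
            Nat.card (AddMonoidHom.comp (φ ^ n : AddMonoid.End A) φ).ker) := by
          rw [i3]; ring

theorem tHLem (hC : S_HCyc) (hQm : S_HQm) (hQn : S_HQn) : S_HLem := by
  intro A _ _ p s hp hs
  set σ : AddMonoid.End A := s with hσ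
  have hs' : ∑ i ∈ Finset.range p, σ ^ i = 0 := by
    refine AddMonoidHom.ext fun x => ?_
    have h1 : AddMonoidHom.eval x (∑ i ∈ Finset.range p, (σ ^ i : AddMonoid.End A)) =
        ∑ i ∈ Finset.range p, AddMonoidHom.eval x (σ ^ i : AddMonoid.End A) :=
      map_sum (AddMonoidHom.eval x) _ _
    refine h1.trans ((Finset.sum_congr rfl fun i _ => ?_).trans (hs x))
    exact congrFun (AddMonoid.End.coe_pow A σ i) x
  obtain ⟨u, v, hu, hv, hcu⟩ := hlem_rel hC hp σ hs'
  obtain ⟨n1, n2, n3⟩ := hQn A p hp.pos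
  have hφ : s - AddMonoidHom.id A = (σ - 1 : AddMonoid.End A) := rfl
  rw [hφ]
  have hpn : ∀ x : A, (p : AddMonoid.End A) x = nsmulAddMonoidHom (α := A) p x := fun x => by
    rw [AddMonoid.End.natCast_apply]; rfl
  have hcv : ((σ - 1) ^ (p - 1) : AddMonoid.End A) = (p : AddMonoid.End A) * v := by
    rw [hv]; exact (Nat.cast_commute p v).symm.eq
  have hrange : (((σ - 1) ^ (p - 1) : AddMonoid.End A) : A →+ A).range =
      (nsmulAddMonoidHom (α := A) p).range := by
    ext y
    constructor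
    · rintro ⟨x, rfl⟩
      refine ⟨v x, ?_⟩
      rw [← hpn, hcv]
      rfl
    · rintro ⟨x, rfl⟩
      refine ⟨u x, ?_⟩
      rw [← hpn, hu, hcu.eq]
      rfl
  have hker : (((σ - 1) ^ (p - 1) : AddMonoid.End A) : A →+ A).ker =
      (nsmulAddMonoidHom (α := A) p).ker := by
    ext x
    rw [AddMonoidHom.mem_ker, AddMonoidHom.mem_ker, ← hpn]
    constructor
    · intro h
      rw [hu]
      exact (congrArg u h).trans (map_zero u)
    · intro h
      rw [hv]
      exact (congrArg v h).trans (map_zero v)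
  have hp1 : p - 1 ≠ 0 := by have := hp.two_le; omega
  obtain ⟨m, hm⟩ := Nat.exists_eq_succ_of_ne_zero hp1
  have f1 : ((σ - 1 : AddMonoid.End A) : A →+ A).range.FiniteIndex := by
    rw [← hrange] at n1
    refine @AddSubgroup.finiteIndex_of_le _ _ _ _ n1 ?_
    rintro y ⟨x, rfl⟩
    rw [hm, pow_succ']
    exact ⟨((σ - 1) ^ m : AddMonoid.End A) x, rfl⟩
  have f2 : Finite ((σ - 1 : AddMonoid.End A) : A →+ A).ker := by
    rw [← hker] at n2
    have hle : ((σ - 1 : AddMonoid.End A) : A →+ A).ker ≤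
        (((σ - 1) ^ (p - 1) : AddMonoid.End A) : A →+ A).ker := by
      intro x hx
      rw [AddMonoidHom.mem_ker] at hx ⊢
      rw [hm, pow_succ]
      exact (congrArg ((σ - 1) ^ m : AddMonoid.End A) hx).trans (map_zero _)
    exact Finite.of_injective _ (AddSubgroup.inclusion_injective hle)
  refine ⟨f1, f2, ?_⟩
  obtain ⟨-, -, h3⟩ := hlem_pow hQm (σ - 1) f1 f2 (p - 1)
  rw [hrange, hker, n3] at h3
  have hpos : 0 < Nat.card (nsmulAddMonoidHom (α := A) p).ker := Nat.card_pos
  refine Nat.eq_of_mul_eq_mul_right hpos ?_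
  rw [← h3]
  ring

end Pool.Agent.FW
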