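import Pool.Agent.Lib.FW.SpecH

open scoped Pointwise NumberField

noncomputable section

namespace Pool.Agent.FW

open Pool.Agent.MuZ

theorem tHPl : S_HPl := by
  intro K L _ _ _ _ _ _ hodd
  have : IsUnramifiedAtInfinitePlaces K L := IsUnramifiedAtInfinitePlaces_of_odd_finrank hodd
  have h := IsUnramifiedAtInfinitePlaces.card_infinitePlace K L
  have hL := NumberField.Units.finrank_eq (K := L)
  have hK := NumberField.Units.finrank_eq (K := K)
  have hLp : 0 < Fintype.card (NumberField.InfinitePlace L) := Fintype.card_pos
  have hKp : 0 < Fintype.card (NumberField.InfinitePlace K) := Fintype.card_pos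
  unfold NumberField.Units.rank at hL hK
  have e1 : Module.finrank ℤ (Additive (𝓞 L)ˣ) + 1 = Fintype.card (NumberField.InfinitePlace L) := by
    omega
  have e2 : Module.finrank ℤ (Additive (𝓞 K)ˣ) + 1 = Fintype.card (NumberField.InfinitePlace K) := by
    omega
  rw [e1, e2, h, mul_comm]

end Pool.Agent.FW
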