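import Pool.Agent.Lib.FW.SpecH

/-!
FW, part H, module HQm: the quotient of the index of the image and the order of the kernel is multiplicative.
-/

open scoped Pointwise NumberField

noncomputable section

namespace Pool.Agent.FW

open Pool.Agent.MuZ

private lemma HQm_card {G H : Type} [AddGroup G] [AddGroup H] (f : G →+ H) :
    Nat.card G = Nat.card f.range * Nat.card f.ker := by
  rw [AddSubgroup.card_eq_card_quotient_mul_card_addSubgroup f.ker,
    Nat.card_congr (QuotientAddGroup.quotientKerEquivRange f).toEquiv]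

theorem tHQm : S_HQm := by
  intro A _ φ ψ hφ hψ hfφ hfψ
  set B := ψ.range with hB
  set K := φ.ker with hK
  have hrange : (φ.comp ψ).range = B.map φ := AddMonoidHom.range_comp φ ψ
  have hidx : (B.map φ).index = (B ⊔ K).index * φ.range.index := AddSubgroup.index_map B φ
  have hB0 : B.index ≠ 0 := hψ.index_ne_zero
  have hrel : B.relIndex (B ⊔ K) * (B ⊔ K).index = B.index :=
    AddSubgroup.relIndex_mul_index le_sup_left
  have hrel2 : B.relIndex (B ⊔ K) = B.relIndex K := by
    rw [sup_comm]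
    exact AddSubgroup.relIndex_sup_right K B
  rw [hrel2] at hrel
  have hBK : (B ⊔ K).index ≠ 0 := by
    intro h
    rw [h, mul_zero] at hrel
    exact hB0 hrel.symm
  have hφ0 : φ.range.index ≠ 0 := hφ.index_ne_zero
  have hKc : Nat.card (B.addSubgroupOf K) * B.relIndex K = Nat.card K :=
    AddSubgroup.card_mul_index (B.addSubgroupOf K)
  -- the kernel of the composition
  set f : (φ.comp ψ).ker →+ A := ψ.comp (φ.comp ψ).ker.subtype with hf
  have hfr : f.range = B ⊓ K := by
    ext x
    constructor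
    · rintro ⟨y, rfl⟩
      refine ⟨⟨(y : A), rfl⟩, ?_⟩
      have := y.2
      exact this
    · rintro ⟨⟨y, rfl⟩, hy⟩
      exact ⟨⟨y, hy⟩, rfl⟩
  have hfk : Nat.card f.ker = Nat.card ψ.ker := by
    refine Nat.card_congr ⟨fun y => ⟨((y : (φ.comp ψ).ker) : A), y.2⟩,
      fun y => ⟨⟨(y : A), ?_⟩, y.2⟩, fun y => rfl, fun y => rfl⟩
    have h1 : ψ (y : A) = 0 := y.2
    change φ (ψ (y : A)) = 0
    rw [h1, map_zero]
  have hc := HQm_card f
  rw [hfr, hfk] at hc
  have hint : Nat.card (B.addSubgroupOf K) = Nat.card (B ⊓ K : AddSubgroup A) := by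
    refine Nat.card_congr ⟨fun y => ⟨((y : K) : A), y.2, (y : K).2⟩,
      fun y => ⟨⟨(y : A), y.2.2⟩, y.2.1⟩, fun y => rfl, fun y => rfl⟩
  have hfinInt : Finite (B ⊓ K : AddSubgroup A) :=
    Finite.of_injective (fun y : (B ⊓ K : AddSubgroup A) => (⟨(y : A), y.2.2⟩ : K))
      (fun y z h => Subtype.ext (congrArg (fun t : K => (t : A)) h))
  refine ⟨?_, ?_, ?_⟩
  · rw [hrange]
    refine ⟨?_⟩
    rw [hidx]
    exact mul_ne_zero hBK hφ0
  · have hpos : Nat.card (φ.comp ψ).ker ≠ 0 := by
      rw [hc]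
      exact mul_ne_zero Nat.card_pos.ne' Nat.card_pos.ne'
    exact Nat.finite_of_card_ne_zero hpos
  · rw [hrange, hidx, hc, ← hrel, ← hKc, hint]
    ring

end Pool.Agent.FW
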