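import Pool.Agent.Lib.FW.SpecH

open scoped Pointwise NumberField

noncomputable section

namespace Pool.Agent.FW

open Pool.Agent.MuZ

/-- index of the range and size of the kernel of multiplication by n only depend on the group
up to isomorphism -/
private lemma nsmul_transport {A B : Type} [AddCommGroup A] [AddCommGroup B] (e : A ≃+ B) (n : ℕ) :
    (nsmulAddMonoidHom (α := A) n).range.index = (nsmulAddMonoidHom (α := B) n).range.index ∧
    Nat.card (nsmulAddMonoidHom (α := A) n).ker = Nat.card (nsmulAddMonoidHom (α := B) n).ker := by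
  constructor
  · have h : (nsmulAddMonoidHom (α := A) n).range =
        (nsmulAddMonoidHom (α := B) n).range.comap (e : A →+ B) := by
      ext x
      rw [AddSubgroup.mem_comap, AddMonoidHom.mem_range, AddMonoidHom.mem_range]
      constructor
      · rintro ⟨y, rfl⟩
        refine ⟨e y, ?_⟩
        simp
      · rintro ⟨y, hy⟩
        refine ⟨e.symm y, ?_⟩
        apply e.injective
        simp only [nsmulAddMonoidHom_apply, map_nsmul, AddEquiv.apply_symm_apply] at hy ⊢
        exact hy
    rw [h, AddSubgroup.index_comap_of_surjective _ e.surjective]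
  · refine Nat.card_congr (Equiv.subtypeEquiv e.toEquiv ?_)
    intro a
    rw [AddMonoidHom.mem_ker, AddMonoidHom.mem_ker, nsmulAddMonoidHom_apply,
      nsmulAddMonoidHom_apply]
    change n • a = 0 ↔ n • e a = 0
    rw [← map_nsmul, EmbeddingLike.map_eq_zero_iff]

/-- the finite case -/
private lemma nsmul_finite {T : Type} [AddCommGroup T] [Finite T] (n : ℕ) :
    (nsmulAddMonoidHom (α := T) n).range.index = Nat.card (nsmulAddMonoidHom (α := T) n).ker := by
  have h1 := AddSubgroup.card_mul_index (nsmulAddMonoidHom (α := T) n).ker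
  rw [AddSubgroup.index_ker] at h1
  have h2 := AddSubgroup.card_mul_index (nsmulAddMonoidHom (α := T) n).range
  have h3 : 0 < Nat.card (nsmulAddMonoidHom (α := T) n).range := Nat.card_pos
  rw [← h1, mul_comm (Nat.card (nsmulAddMonoidHom (α := T) n).ker)] at h2
  exact Nat.eq_of_mul_eq_mul_left h3 h2

/-- the free case: index -/
private lemma nsmul_free_index (r n : ℕ) (hn : 0 < n) :
    (nsmulAddMonoidHom (α := Fin r → ℤ) n).range.index = n ^ r := by
  have : NeZero n := ⟨hn.ne'⟩
  let g : (Fin r → ℤ) →+ (Fin r → ZMod n) := (Int.castAddHom (ZMod n)).compLeft (Fin r)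
  have hk : (nsmulAddMonoidHom (α := Fin r → ℤ) n).range = g.ker := by
    ext x
    rw [AddMonoidHom.mem_range, AddMonoidHom.mem_ker]
    constructor
    · rintro ⟨y, rfl⟩
      funext i
      simp [g]
    · intro h
      have h1 : ∀ i, (n : ℤ) ∣ x i := by
        intro i
        have h2 := congrFun h i
        simp only [g, AddMonoidHom.compLeft_apply, Function.comp_apply, Int.coe_castAddHom,
          Pi.zero_apply] at h2
        exact (ZMod.intCast_zmod_eq_zero_iff_dvd (x i) n).mp h2
      choose y hy using h1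
      refine ⟨y, ?_⟩
      funext i
      rw [nsmulAddMonoidHom_apply, Pi.smul_apply, hy i, nsmul_eq_mul]
  have hs : Function.Surjective g := by
    intro y
    refine ⟨fun i => ((y i).cast : ℤ), ?_⟩
    funext i
    simp [g]
  rw [hk, AddSubgroup.index_ker, AddMonoidHom.range_eq_top.mpr hs]
  rw [AddSubgroup.card_top]
  simp

private lemma nsmul_free_ker (r n : ℕ) (hn : 0 < n) :
    (nsmulAddMonoidHom (α := Fin r → ℤ) n).ker = ⊥ := by
  rw [AddMonoidHom.ker_eq_bot_iff]
  intro x y hxy
  simp only [nsmulAddMonoidHom_apply] at hxy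
  funext i
  have h := congrFun hxy i
  simp only [Pi.smul_apply, nsmul_eq_mul] at h
  have hn' : (n : ℤ) ≠ 0 := by exact_mod_cast hn.ne'
  exact mul_left_cancel₀ hn' h

private lemma nsmul_prod (P T : Type) [AddCommGroup P] [AddCommGroup T] (n : ℕ) :
    (nsmulAddMonoidHom (α := P × T) n).range =
      (nsmulAddMonoidHom (α := P) n).range.prod (nsmulAddMonoidHom (α := T) n).range ∧
    (nsmulAddMonoidHom (α := P × T) n).ker =
      (nsmulAddMonoidHom (α := P) n).ker.prod (nsmulAddMonoidHom (α := T) n).ker := by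
  constructor
  · ext ⟨x, y⟩
    simp only [AddSubgroup.mem_prod, AddMonoidHom.mem_range, nsmulAddMonoidHom_apply]
    constructor
    · rintro ⟨⟨a, b⟩, h⟩
      rw [Prod.smul_mk, Prod.mk.injEq] at h
      exact ⟨⟨a, h.1⟩, ⟨b, h.2⟩⟩
    · rintro ⟨⟨a, ha⟩, ⟨b, hb⟩⟩
      exact ⟨(a, b), by rw [Prod.smul_mk, ha, hb]⟩
  · ext ⟨x, y⟩
    simp only [AddSubgroup.mem_prod, AddMonoidHom.mem_ker, nsmulAddMonoidHom_apply, Prod.smul_mk,
      Prod.mk_eq_zero]

private lemma finrank_prod_finite (r : ℕ) (T : Type) [AddCommGroup T] [Finite T] :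
    Module.finrank ℤ ((Fin r → ℤ) × T) = r := by
  have h := Submodule.finrank_quotient_add_finrank (LinearMap.ker (LinearMap.fst ℤ (Fin r → ℤ) T))
  have e := LinearMap.quotKerEquivOfSurjective (LinearMap.fst ℤ (Fin r → ℤ) T)
    LinearMap.fst_surjective
  have h1 : Module.finrank ℤ (LinearMap.ker (LinearMap.fst ℤ (Fin r → ℤ) T)) = 0 := by
    apply Module.IsTorsion.finrank_eq_zero
    intro x
    refine ⟨⟨(Nat.card T : ℤ), ?_⟩, ?_⟩
    · rw [mem_nonZeroDivisors_iff_ne_zero]
      exact_mod_cast Nat.card_pos.ne'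
    · obtain ⟨⟨a, b⟩, hx⟩ := x
      have ha : a = 0 := hx
      subst ha
      apply Subtype.ext
      change (Nat.card T : ℤ) • ((0 : Fin r → ℤ), b) = 0
      rw [Prod.smul_mk, smul_zero, natCast_zsmul, card_nsmul_eq_zero']
      rfl
  rw [h1, add_zero, e.finrank_eq] at h
  rw [← h]
  simp

private lemma nsmul_main (A T : Type) [AddCommGroup A] [AddCommGroup T] [Finite T] (r n : ℕ)
    (hn : 0 < n) (f : A ≃+ (Fin r → ℤ) × T) :
    (nsmulAddMonoidHom (α := A) n).range.FiniteIndex ∧ Finite (nsmulAddMonoidHom (α := A) n).ker ∧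
    (nsmulAddMonoidHom (α := A) n).range.index =
      n ^ Module.finrank ℤ A * Nat.card (nsmulAddMonoidHom (α := A) n).ker := by
  obtain ⟨h1, h2⟩ := nsmul_transport f n
  obtain ⟨h3, h4⟩ := nsmul_prod (Fin r → ℤ) T n
  have h5 : (nsmulAddMonoidHom (α := A) n).range.index =
      n ^ r * Nat.card (nsmulAddMonoidHom (α := T) n).ker := by
    rw [h1, h3, AddSubgroup.index_prod, nsmul_free_index r n hn, nsmul_finite]
  have h6 : Nat.card (nsmulAddMonoidHom (α := A) n).ker =
      Nat.card (nsmulAddMonoidHom (α := T) n).ker := by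
    rw [h2, h4, nsmul_free_ker r n hn]
    rw [Nat.card_congr (AddSubgroup.prodEquiv _ _).toEquiv, Nat.card_prod, AddSubgroup.card_bot,
      one_mul]
  have h7 : Module.finrank ℤ A = r := by
    rw [LinearEquiv.finrank_eq f.toIntLinearEquiv, finrank_prod_finite]
  have h8 : 0 < Nat.card (nsmulAddMonoidHom (α := T) n).ker := Nat.card_pos
  refine ⟨⟨?_⟩, ?_, ?_⟩
  · rw [h5]
    exact mul_ne_zero (pow_ne_zero _ hn.ne') h8.ne'
  · apply Nat.finite_of_card_ne_zero
    rw [h6]
    exact h8.ne'
  · rw [h5, h6, h7]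

theorem tHQn : S_HQn := by
  intro A _ _ n hn
  have : AddGroup.FG A := Module.Finite.iff_addGroup_fg.mp inferInstance
  obtain ⟨r, ι, fι, p, hp, e, ⟨f⟩⟩ := AddCommGroup.equiv_free_prod_directSum_zmod A
  have : ∀ i : ι, NeZero (p i ^ e i) := fun i => ⟨pow_ne_zero (e i) (hp i).ne_zero⟩
  have : Finite (DirectSum ι fun i => ZMod (p i ^ e i)) :=
    Finite.of_equiv _ DFinsupp.equivFunOnFintype.symm
  exact nsmul_main A (DirectSum ι fun i => ZMod (p i ^ e i)) r n hn
    (f.trans ((Finsupp.linearEquivFunOnFinite ℤ ℤ (Fin r)).toAddEquiv.prodCongr (AddEquiv.refl _)))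

end Pool.Agent.FW
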