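import Pool.Agent.Lib.FW.SpecH
import Pool.Agent.Lib.MuZ.Fld

/-!
FW, part H, last module: Hilbert 94 in the form of the interface.
-/

open scoped Pointwise NumberField

noncomputable section

namespace Pool.Agent.FW

open Pool.Agent.MuZ

theorem tH94 : S_H94' := by
  intro hAbs hInv hIne hExt p hp hp2 F hF hcl g hg
  by_contra hg0
  obtain ⟨M, hAdm, hM⟩ := Pool.Agent.MuZ.fld p F g hg
  have hFM : F ≤ M := hAdm.le
  have hfinF : FiniteDimensional ℚ F := hF.to_finiteDimensional
  have hfinM : FiniteDimensional ℚ M := by
    obtain ⟨E, hE, hME⟩ := hAdm.fin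
    have h1 : FiniteDimensional ℚ (F ⊔ E : IntermediateField ℚ Om) :=
      IntermediateField.finiteDimensional_sup F E
    have h2 : Function.Injective (IntermediateField.inclusion hME) :=
      (IntermediateField.inclusion hME).injective
    exact FiniteDimensional.of_injective (IntermediateField.inclusion hME).toLinearMap h2
  obtain ⟨L, iF, iN, iA, iG, hrank, htriv⟩ :=
    hExt hIne p F M hFM hF hfinM hAdm.galois g hg hg0 hM
  have hpr : (Module.finrank F L).Prime := by rw [hrank]; exact hp.out
  have hne : Module.finrank F L ≠ 2 := by rw [hrank]; exact hp2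
  have hdvd := hAbs F L hpr hne (hInv F L htriv)
  rw [hrank] at hdvd
  exact hcl hdvd

end Pool.Agent.FW
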