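import Pool.Agent.Lib.FW.SpecH

/-!
# Part H: the theorem for abstract number fields
-/

open scoped Pointwise NumberField

noncomputable section

namespace Pool.Agent.FW

open Pool.Agent.MuZ

private theorem habs_one {K L : Type} [Field K] [Field L] [Algebra K L] (x : Additive (𝓞 L)ˣ) :
    unMap (1 : Gal(L/K)) x = x := by
  apply Additive.toMul.injective
  ext
  rfl

private theorem habs_mul {K L : Type} [Field K] [Field L] [Algebra K L] (s t : Gal(L/K))
    (x : Additive (𝓞 L)ˣ) : unMap (s * t) x = unMap s (unMap t x) := by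
  apply Additive.toMul.injective
  ext
  rfl

private theorem habs_iter {K L : Type} [Field K] [Field L] [Algebra K L] (s : Gal(L/K)) (n : ℕ)
    (x : Additive (𝓞 L)ˣ) : (unMap s)^[n] x = unMap (s ^ n) x := by
  induction n with
  | zero => rw [Function.iterate_zero, id, pow_zero, habs_one]
  | succ n ih => rw [Function.iterate_succ_apply', ih, ← habs_mul, pow_succ']

theorem tHAbs (hRk : S_HRk) (hPl : S_HPl) (hFx : S_HFx) (hUn : S_HUn) : S_HAbs := by
  intro K L _ _ _ _ _ _ hp h2 hInv
  by_contra hdiv
  have hcop : (Module.finrank K L).Coprime (NumberField.classNumber K) :=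
    (Nat.Prime.coprime_iff_not_dvd hp).2 hdiv
  have hcard : Nat.card Gal(L/K) = Module.finrank K L := IsGalois.card_aut_eq_finrank K L
  have : Fact (Module.finrank K L).Prime := ⟨hp⟩
  have : IsCyclic Gal(L/K) := isCyclic_of_prime_card hcard
  obtain ⟨s, hs⟩ := IsCyclic.exists_generator (α := Gal(L/K))
  have hsp : s ^ (Module.finrank K L) = 1 := by rw [← hcard]; exact pow_card_eq_one'
  have h1 := hRk (Additive (𝓞 L)ˣ) (Module.finrank K L) (unMap s) hp
    (fun x => by rw [habs_iter, hsp, habs_one]) (hUn K L s hs hInv hcop)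
  rw [hFx K L s hs] at h1
  have h3 := hPl K L (hp.odd_of_ne_two h2)
  have h4 := hp.two_le
  rw [mul_add, mul_one] at h3
  omega

end Pool.Agent.FW
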