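import Pool.Agent.Lib.FW.SpecH

/-!
# Part H: no capitulation for ideals of order prime to the degree
-/

open scoped Pointwise NumberField

noncomputable section

namespace Pool.Agent.FW

open Pool.Agent.MuZ

private theorem hcap_pow {R : Type} [CommRing R] [IsDedekindDomain R] {I J : Ideal R} {n : ℕ}
    (hn : n ≠ 0) (h : I ^ n = J ^ n) : I = J := by
  have h1 : I ∣ J := (UniqueFactorizationMonoid.pow_dvd_pow_iff_dvd hn).1 (dvd_of_eq h)
  have h2 : J ∣ I := (UniqueFactorizationMonoid.pow_dvd_pow_iff_dvd hn).1 (dvd_of_eq h.symm)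
  exact dvd_antisymm h1 h2

theorem tHCap : S_HCap := by
  intro K L _ _ _ _ _ _ hcop J α hα hJ
  set n := Module.finrank K L with hn
  set h := NumberField.classNumber K with hh
  have hh0 : h ≠ 0 := NumberField.classNumber_ne_zero K
  have hJ0 : J ≠ ⊥ := by
    rintro rfl
    rw [Ideal.map_bot] at hJ
    exact hα (Ideal.span_singleton_eq_bot.1 hJ.symm)
  have hJm : J ∈ nonZeroDivisors (Ideal (𝓞 K)) := mem_nonZeroDivisors_of_ne_zero hJ0
  have hJh : (J ^ h).IsPrincipal := by
    have h1 : ClassGroup.mk0 (⟨J, hJm⟩ : nonZeroDivisors (Ideal (𝓞 K))) ^ h = 1 := by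
      rw [hh, NumberField.classNumber]
      exact pow_card_eq_one
    rw [← map_pow] at h1
    exact (ClassGroup.mk0_eq_one_iff (pow_mem hJm h)).1 h1
  obtain ⟨c, hc⟩ := hJh.principal
  have hc' : J ^ h = Ideal.span {c} := hc
  have hass : Associated (α ^ h) (algebraMap (𝓞 K) (𝓞 L) c) := by
    rw [← Ideal.span_singleton_eq_span_singleton, ← Ideal.span_singleton_pow, ← hJ,
      ← Ideal.map_pow, hc', Ideal.map_span, Set.image_singleton]
  obtain ⟨u, hu⟩ := hass
  set N : 𝓞 L →* 𝓞 K := RingOfIntegers.norm K with hN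
  have hnorm : N α ^ h * N (u : 𝓞 L) = c ^ n := by
    rw [← map_pow, ← map_mul, hu, hN, RingOfIntegers.norm_algebraMap]
  have hNu : IsUnit (N (u : 𝓞 L)) := u.isUnit.map N
  have hpr : Ideal.span {N α} ^ h = (J ^ n) ^ h := by
    rw [← pow_mul, mul_comm n h, pow_mul, hc', Ideal.span_singleton_pow, Ideal.span_singleton_pow,
      ← hnorm, Ideal.span_singleton_mul_right_unit hNu]
  have h2 : Ideal.span {N α} = J ^ n := hcap_pow hh0 hpr
  have h3 : (J ^ n).IsPrincipal := ⟨⟨N α, h2.symm⟩⟩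
  have h4 : J.IsPrincipal := Ideal.IsPrincipal.of_isPrincipal_pow_of_coprime hcop h3
  obtain ⟨d, hd⟩ := h4.principal
  exact ⟨d, hd⟩

end Pool.Agent.FW
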