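import Pool.Agent.Lib.FW.SpecH

/-!
# FW, part H: the extension of number fields which belongs to a character
-/

open scoped Pointwise NumberField

noncomputable section

namespace Pool.Agent.FW

open Pool.Agent.MuZ

/-- The integers of a field which lies in `Om`, as algebraic integers of `Om`. -/
private def hxJ {F : IntermediateField ℚ Om} (L : IntermediateField F Om) : 𝓞 L →+* ZZ :=
  RingHom.codRestrict ((algebraMap L Om).comp (algebraMap (𝓞 L) L)) (integralClosure ℤ Om)
    (fun x => (NumberField.RingOfIntegers.isIntegral_coe x).map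
      ((algebraMap L Om).toIntAlgHom))

private theorem hxJ_coe {F : IntermediateField ℚ Om} (L : IntermediateField F Om) (x : 𝓞 L) :
    ((hxJ L x : ZZ) : Om) = ((x : L) : Om) := rfl

private theorem hxJ_inj {F : IntermediateField ℚ Om} (L : IntermediateField F Om) :
    Function.Injective (hxJ L) := by
  intro x y h
  have h1 : ((hxJ L x : ZZ) : Om) = ((hxJ L y : ZZ) : Om) := by rw [h]
  rw [hxJ_coe, hxJ_coe] at h1
  exact NumberField.RingOfIntegers.ext (Subtype.ext h1)

private theorem hxJ_surj {F : IntermediateField ℚ Om} (L : IntermediateField F Om) (y : ZZ)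
    (hy : (y : Om) ∈ L) : ∃ x : 𝓞 L, hxJ L x = y := by
  have hint : IsIntegral ℤ (⟨(y : Om), hy⟩ : L) := by
    have h1 : IsIntegral ℤ (algebraMap L Om ⟨(y : Om), hy⟩) := y.2
    exact (isIntegral_algHom_iff ((algebraMap L Om).toIntAlgHom)
      (algebraMap L Om).injective).1 h1
  exact ⟨⟨⟨(y : Om), hy⟩, hint⟩, Subtype.ext rfl⟩

theorem tHExt : S_HExt := by
  intro hIne p hp F M hFM hNF hMfin hMst g hg hg0 hker
  have : NumberField F := hNF
  have : FiniteDimensional ℚ M := hMfin
  obtain ⟨hg1, hg2, -, hg4⟩ := hg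
  have : Normal F Om := Normal.tower_top_of_normal ℚ F Om
  have : IsGalois F Om := ⟨⟩
  let L : IntermediateField F Om := IntermediateField.extendScalars hFM
  have hL : ∀ x : Om, x ∈ L ↔ x ∈ M := fun x => IntermediateField.mem_extendScalars hFM
  -- automorphisms
  have hres : ∀ σ : Gal(Om/F), (σ.restrictScalars ℚ : Gal(Om/ℚ)) ∈ F.fixingSubgroup := by
    intro σ
    rw [IntermediateField.mem_fixingSubgroup_iff]
    intro x hx
    exact σ.commutes ⟨x, hx⟩
  have hNorm : Normal F L := by
    rw [IntermediateField.normal_iff_forall_map_le']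
    rintro σ x ⟨y, hy, rfl⟩
    exact (hL _).2 (hMst _ (hres σ) _ ((hL y).1 hy))
  have hGal : IsGalois F L := ⟨⟩
  have hNFL : NumberField L := by
    have e : M ≃+ L := ⟨⟨fun x => ⟨(x : Om), (hL _).2 x.2⟩, fun x => ⟨(x : Om), (hL _).1 x.2⟩,
      fun _ => rfl, fun _ => rfl⟩, fun _ _ => rfl⟩
    exact { to_charZero := inferInstance
            to_finiteDimensional := Module.Finite.of_surjective
              e.toAddMonoidHom.toRatLinearMap e.surjective }
  have hdeg : Module.finrank F L = p := by
    rw [IntermediateField.finrank_eq_fixingSubgroup_index Om L]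
    let φ : Gal(Om/F) →* Multiplicative (ZMod p) :=
      { toFun := fun σ => Multiplicative.ofAdd (g (σ.restrictScalars ℚ))
        map_one' := by
          have h1 := hg2 1 F.fixingSubgroup.one_mem 1 F.fixingSubgroup.one_mem
          have h2 : g 1 = 0 := by
            rw [mul_one] at h1
            exact left_eq_add.1 h1
          exact congrArg Multiplicative.ofAdd h2
        map_mul' := fun σ τ => congrArg Multiplicative.ofAdd (hg2 _ (hres σ) _ (hres τ)) }
    have hφ : φ.ker = L.fixingSubgroup := by
      ext σ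
      rw [MonoidHom.mem_ker, IntermediateField.mem_fixingSubgroup_iff]
      have h1 : (φ σ = 1) ↔ g (σ.restrictScalars ℚ) = 0 := Iff.rfl
      rw [h1]
      have h2 := hker (σ.restrictScalars ℚ)
      rw [IntermediateField.mem_fixingSubgroup_iff] at h2
      constructor
      · intro h x hx
        exact h2.2 ⟨hres σ, h⟩ x ((hL x).1 hx)
      · intro h
        exact (h2.1 fun x hx => h x ((hL x).2 hx)).2
    rw [← hφ, Subgroup.index_ker]
    have hcard : Nat.card (Multiplicative (ZMod p)) = p := by
      rw [Nat.card_congr Multiplicative.toAdd, Nat.card_zmod]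
    have htop : φ.range = ⊤ := by
      have : Fact (Nat.card (Multiplicative (ZMod p))).Prime := ⟨by rw [hcard]; exact hp.out⟩
      rcases Subgroup.eq_bot_or_eq_top_of_prime_card φ.range with h | h
      · exfalso
        apply hg0
        funext τ
        by_cases hτ : τ ∈ F.fixingSubgroup
        · let τ' : Gal(Om/F) := IntermediateField.fixingSubgroupEquiv F ⟨τ, hτ⟩
          have h1 : φ τ' ∈ φ.range := ⟨τ', rfl⟩
          rw [h, Subgroup.mem_bot] at h1
          have h2 : (τ'.restrictScalars ℚ : Gal(Om/ℚ)) = τ := by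
            ext x
            rfl
          have h3 : g (τ'.restrictScalars ℚ) = 0 := h1
          rw [h2] at h3
          exact h3
        · exact hg1 τ hτ
      · exact h
    rw [htop, Subgroup.card_top, hcard]
  have hin : TrivIn F L := by
    intro P0 hP0 hP0b s hs
    let : Algebra (𝓞 L) ZZ := (hxJ L).toAlgebra
    have : IsScalarTower ℤ (𝓞 L) ZZ := IsScalarTower.of_algebraMap_eq fun x => by
      simp
    have : Algebra.IsIntegral (𝓞 L) ZZ := Algebra.IsIntegral.tower_top ℤ
    have := hP0
    have hcom : (⊥ : Ideal ZZ).comap (algebraMap (𝓞 L) ZZ) = ⊥ := by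
      rw [← RingHom.ker_eq_comap_bot]
      exact (RingHom.injective_iff_ker_eq_bot _).1 (hxJ_inj L)
    obtain ⟨P, -, hP, hPc⟩ := Ideal.exists_ideal_over_prime_of_isIntegral P0 (⊥ : Ideal ZZ)
      (by rw [hcom]; exact bot_le)
    have hPb : P ≠ ⊥ := by
      rintro rfl
      exact hP0b (by rw [← hPc, hcom])
    let σ : Gal(Om/F) := s.liftNormal Om
    have hσ : ∀ x : L, σ (x : Om) = ((s x : L) : Om) := fun x => s.liftNormal_commutes Om x
    obtain ⟨ρ, hρ1, hρ2, hρ3⟩ := hIne F M hMfin hFM P hP hPb (σ.restrictScalars ℚ) (hres σ)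
      (fun x hx => hMst _ (hres σ) x hx) (by
        intro y hy
        obtain ⟨x, rfl⟩ := hxJ_surj L y ((hL _).2 hy)
        have h1 := hs x
        rw [← hPc, Ideal.mem_comap, map_sub] at h1
        have h2 : algebraMap (𝓞 L) ZZ (NumberField.RingOfIntegers.mapRingHom (s : L →+* L) x) =
            (σ.restrictScalars ℚ : Gal(Om/ℚ)) • hxJ L x := by
          refine Subtype.ext ?_
          exact (hσ (x : L)).symm
        rw [h2] at h1
        exact h1)
    have hgρ : g ρ = 0 := hg4 _ (Or.inl ⟨P, hP, hPb, rfl⟩) ρ hρ1 hρ2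
    have hρM := (hker ρ).2 ⟨hρ2, hgρ⟩
    rw [IntermediateField.mem_fixingSubgroup_iff] at hρM
    apply AlgEquiv.ext
    intro x
    apply Subtype.ext
    have hxM : (x : Om) ∈ M := (hL _).1 x.2
    have h1 := hρ3 (x : Om) hxM
    rw [hρM _ hxM] at h1
    have h2 : (σ.restrictScalars ℚ : Gal(Om/ℚ)) (x : Om) = ((s x : L) : Om) := hσ x
    rw [h2] at h1
    exact h1.symm
  exact ⟨L, inferInstance, hNFL, inferInstance, hGal, hdeg, hin⟩

end Pool.Agent.FW
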