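import Pool.Agent.Lib.FW.SpecH

/-! Trivial inertia implies that invariant ideals are extended. -/

noncomputable section

open scoped Pointwise NumberField

namespace Pool.Agent.FW

open Pool.Agent.MuZ

section

variable {K L : Type} [Field K] [NumberField K] [Field L] [NumberField L] [Algebra K L]

omit [NumberField K] [NumberField L] in
private theorem HInv_smul (s : Gal(L/K)) (x : 𝓞 L) :
    NumberField.RingOfIntegers.mapRingHom (s : L →+* L) x = s • x := by
  apply NumberField.RingOfIntegers.ext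
  rfl

omit [NumberField K] [NumberField L] in
private theorem HInv_map (s : Gal(L/K)) (I : Ideal (𝓞 L)) :
    I.map (NumberField.RingOfIntegers.mapRingHom (s : L →+* L)) = s • I := by
  have h : NumberField.RingOfIntegers.mapRingHom (s : L →+* L) =
      MulSemiringAction.toRingHom Gal(L/K) (𝓞 L) s := RingHom.ext (HInv_smul s)
  rw [h]
  rfl

omit [Field L] [NumberField L] [Algebra K L] in
private theorem HInv_perf (q : Ideal (𝓞 K)) [q.IsMaximal] (hq : q ≠ ⊥) :
    PerfectField q.ResidueField := by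
  have : Finite (𝓞 K ⧸ q) := Ideal.finiteQuotientOfFreeOfNeBot q hq
  have : Finite q.ResidueField :=
    Finite.of_surjective _ (Ideal.bijective_algebraMap_quotient_residueField q).2
  infer_instance

variable [IsGalois K L]

private theorem HInv_ram (hT : TrivIn K L) (q : Ideal (𝓞 K)) [q.IsMaximal] (hq : q ≠ ⊥)
    (P : Ideal (𝓞 L)) [P.IsPrime] [P.LiesOver q] : P.ramificationIdx (𝓞 K) = 1 := by
  have hP : P ≠ ⊥ := Ideal.ne_bot_of_liesOver_of_ne_bot hq P
  have h1 : P.inertia Gal(L/K) = ⊥ := by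
    rw [eq_bot_iff]
    intro s hs
    rw [Subgroup.mem_bot]
    refine hT P inferInstance hP s fun x => ?_
    rw [HInv_smul]
    exact hs x
  have := HInv_perf q hq
  rw [← Ideal.ramificationIdxIn_eq_ramificationIdx q P Gal(L/K),
    ← Ideal.card_inertia_eq_ramificationIdxIn (G := Gal(L/K)) q P, h1]
  simp

private theorem HInv_dvd (hT : TrivIn K L) (q : Ideal (𝓞 K)) [q.IsMaximal] (hq : q ≠ ⊥)
    (I : Ideal (𝓞 L)) (hI : ∀ P : Ideal (𝓞 L), P.IsPrime → P.LiesOver q → I ≤ P) :
    q.map (algebraMap (𝓞 K) (𝓞 L)) ∣ I := by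
  rw [Ideal.map_algebraMap_eq_finsetProd_pow hq]
  have h1 : ∀ P : Ideal (𝓞 L), P ∈ q.primesOver (𝓞 L) → P ^ P.ramificationIdx (𝓞 K) = P := by
    intro P hP
    have := hP.1
    have := hP.2
    rw [HInv_ram hT q hq P, pow_one]
  refine Finset.prod_dvd_of_coprime ?_ ?_
  · intro P hP P' hP' hne
    rw [Finset.mem_coe, Set.mem_toFinset] at hP hP'
    have := hP.1
    have := hP.2
    have := hP'.1
    have := hP'.2
    have k1 : P ≠ ⊥ := Ideal.ne_bot_of_liesOver_of_ne_bot hq P
    have k2 : P' ≠ ⊥ := Ideal.ne_bot_of_liesOver_of_ne_bot hq P'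
    have : P.IsMaximal := Ideal.IsPrime.isMaximal inferInstance k1
    have : P'.IsMaximal := Ideal.IsPrime.isMaximal inferInstance k2
    change IsCoprime (P ^ P.ramificationIdx (𝓞 K)) (P' ^ P'.ramificationIdx (𝓞 K))
    rw [h1 P hP, h1 P' hP']
    exact Ideal.isCoprime_iff_sup_eq.2 (Ideal.IsMaximal.coprime_of_ne inferInstance inferInstance hne)
  · intro P hP
    rw [Set.mem_toFinset] at hP
    rw [h1 P hP]
    exact Ideal.dvd_iff_le.2 (hI P hP.1 hP.2)

end

theorem tHInv : S_HInv := by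
  intro K L _ _ _ _ _ _ hT
  have key : ∀ I : Ideal (𝓞 L), I ≠ ⊥ → (∀ s : Gal(L/K), s • I = I) →
      ∃ J : Ideal (𝓞 K), J.map (algebraMap (𝓞 K) (𝓞 L)) = I := by
    intro I
    induction I using IsNoetherian.induction with
    | hgt I ih =>
    intro hI hs
    by_cases hT' : I = ⊤
    · exact ⟨⊤, by rw [Ideal.map_top, hT']⟩
    obtain ⟨P, hPm, hIP⟩ := Ideal.exists_le_maximal I hT'
    have : P.IsPrime := hPm.isPrime
    have hP0 : P ≠ ⊥ := fun h => hI (le_bot_iff.1 (h ▸ hIP))
    obtain ⟨q, hq⟩ : ∃ q : Ideal (𝓞 K), q = P.under (𝓞 K) := ⟨_, rfl⟩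
    have : P.LiesOver q := ⟨hq⟩
    have : q.IsMaximal := by
      rw [hq]
      infer_instance
    have hq0 : q ≠ ⊥ := by
      rw [hq]
      exact Ideal.under_ne_bot (𝓞 K) hP0
    have hd : q.map (algebraMap (𝓞 K) (𝓞 L)) ∣ I := by
      refine HInv_dvd hT q hq0 I fun P' h1 h2 => ?_
      have := h1
      obtain ⟨g, hg⟩ := Algebra.IsInvariant.exists_smul_of_under_eq (𝓞 K) (𝓞 L) Gal(L/K) P P'
        (by rw [← hq]; exact h2.over)
      rw [hg, ← hs g, ← HInv_map, ← HInv_map]
      exact Ideal.map_mono hIP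
    obtain ⟨I', hI'⟩ := hd
    have hqL0 : q.map (algebraMap (𝓞 K) (𝓞 L)) ≠ ⊥ := Ideal.map_ne_bot_of_ne_bot hq0
    have hqLt : q.map (algebraMap (𝓞 K) (𝓞 L)) ≠ ⊤ := by
      intro h
      have h1 : q.map (algebraMap (𝓞 K) (𝓞 L)) ≤ P := by
        rw [Ideal.map_le_iff_le_comap]
        exact hq.le
      rw [h] at h1
      exact hPm.ne_top (top_le_iff.1 h1)
    have hI'0 : I' ≠ ⊥ := by
      intro h
      rw [h, Ideal.mul_bot] at hI'
      exact hI hI'
    have hsq : ∀ s : Gal(L/K), s • q.map (algebraMap (𝓞 K) (𝓞 L)) =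
        q.map (algebraMap (𝓞 K) (𝓞 L)) := by
      intro s
      rw [← HInv_map, Ideal.map_map]
      congr 1
      refine RingHom.ext fun x => ?_
      rw [RingHom.comp_apply, HInv_smul]
      exact smul_algebraMap s x
    have hsI' : ∀ s : Gal(L/K), s • I' = I' := by
      intro s
      have h1 := hs s
      rw [hI', ← HInv_map, Ideal.map_mul, HInv_map, HInv_map, hsq] at h1
      exact mul_left_cancel₀ hqL0 h1
    have hlt : I < I' := by
      refine lt_of_le_of_ne ?_ ?_
      · rw [hI']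
        exact Ideal.mul_le_right
      · intro h
        have h1 : q.map (algebraMap (𝓞 K) (𝓞 L)) * I' = ⊤ * I' := by
          rw [Ideal.top_mul, ← hI', h]
        exact hqLt (mul_right_cancel₀ hI'0 h1)
    obtain ⟨J, hJ⟩ := ih I' hlt hI'0 hsI'
    exact ⟨q * J, by rw [Ideal.map_mul, hJ, ← hI']⟩
  intro I hI h
  refine key I hI fun s => ?_
  rw [← HInv_map]
  exact h s

end Pool.Agent.FW
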