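import Pool.Agent.Lib.FW.SpecH

/-!
# Part H: units of norm one
-/

open scoped Pointwise NumberField

noncomputable section

namespace Pool.Agent.FW

open Pool.Agent.MuZ

private theorem hun_one {K L : Type} [Field K] [Field L] [Algebra K L] (x : Additive (𝓞 L)ˣ) :
    unMap (1 : Gal(L/K)) x = x := by
  apply Additive.toMul.injective
  ext
  rfl

private theorem hun_mul {K L : Type} [Field K] [Field L] [Algebra K L] (s t : Gal(L/K))
    (x : Additive (𝓞 L)ˣ) : unMap (s * t) x = unMap s (unMap t x) := by
  apply Additive.toMul.injective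
  ext
  rfl

private theorem hun_iter {K L : Type} [Field K] [Field L] [Algebra K L] (s : Gal(L/K)) (n : ℕ)
    (x : Additive (𝓞 L)ˣ) : (unMap s)^[n] x = unMap (s ^ n) x := by
  induction n with
  | zero => rw [Function.iterate_zero, id, pow_zero, hun_one]
  | succ n ih => rw [Function.iterate_succ_apply', ih, ← hun_mul, pow_succ']

private theorem hun_val {K L : Type} [Field K] [Field L] [Algebra K L] (s : Gal(L/K))
    (x : Additive (𝓞 L)ˣ) :
    algebraMap (𝓞 L) L ((unMap s x).toMul : 𝓞 L) = s (algebraMap (𝓞 L) L (x.toMul : 𝓞 L)) := rfl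

/-- the sum over the powers is the norm -/
private theorem hun_norm {K L : Type} [Field K] [NumberField K] [Field L] [NumberField L]
    [Algebra K L] [IsGalois K L] (s : Gal(L/K)) (hs : ∀ g : Gal(L/K), g ∈ Subgroup.zpowers s)
    (x : Additive (𝓞 L)ˣ)
    (hx : ∑ i ∈ Finset.range (Module.finrank K L), ((unMap s)^[i]) x = 0) :
    Algebra.norm K (algebraMap (𝓞 L) L (x.toMul : 𝓞 L)) = 1 := by
  classical
  apply (algebraMap K L).injective
  rw [Algebra.norm_eq_prod_automorphisms, map_one]
  have hcard : orderOf s = Module.finrank K L := by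
    rw [orderOf_eq_card_of_forall_mem_zpowers hs, IsGalois.card_aut_eq_finrank]
  have h1 : ∏ i ∈ Finset.range (Module.finrank K L),
      (s ^ i) (algebraMap (𝓞 L) L (x.toMul : 𝓞 L)) = 1 := by
    have h2 := congrArg (fun y : Additive (𝓞 L)ˣ => algebraMap (𝓞 L) L (y.toMul : 𝓞 L)) hx
    simp only [toMul_sum, toMul_zero, Units.val_one, map_one, Units.coe_prod, map_prod] at h2
    rw [← h2]
    refine Finset.prod_congr rfl fun i _ => ?_
    rw [hun_iter, hun_val]
  rw [← h1]
  symm
  refine Finset.prod_bij (fun i _ => s ^ i) (fun _ _ => Finset.mem_univ _) ?_ ?_ fun _ _ => rfl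
  · intro i hi j hj hij
    refine pow_injOn_Iio_orderOf ?_ ?_ hij
    · rw [hcard]; exact Finset.mem_range.1 hi
    · rw [hcard]; exact Finset.mem_range.1 hj
  · intro g _
    have := mem_zpowers_iff_mem_range_orderOf.1 (hs g)
    obtain ⟨i, hi, h⟩ := Finset.mem_image.1 this
    exact ⟨i, by rw [← hcard]; exact hi, h⟩

/-- the automorphisms which fix an ideal -/
private def hunStab {K L : Type} [Field K] [Field L] [Algebra K L] (I : Ideal (𝓞 L)) :
    Subgroup Gal(L/K) where
  carrier := {t | I.map (NumberField.RingOfIntegers.mapRingHom (t : L →+* L)) = I}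
  one_mem' := by
    have : NumberField.RingOfIntegers.mapRingHom ((1 : Gal(L/K)) : L →+* L) =
        RingHom.id (𝓞 L) := by
      ext; rfl
    change I.map _ = I
    rw [this, Ideal.map_id]
  mul_mem' := by
    intro a b ha hb
    have : NumberField.RingOfIntegers.mapRingHom ((a * b : Gal(L/K)) : L →+* L) =
        (NumberField.RingOfIntegers.mapRingHom (a : L →+* L)).comp
          (NumberField.RingOfIntegers.mapRingHom (b : L →+* L)) := by
      ext; rfl
    change I.map _ = I
    rw [this, ← Ideal.map_map, show Ideal.map _ I = I from hb, show Ideal.map _ I = I from ha]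
  inv_mem' := by
    intro a ha
    change I.map _ = I
    have : (NumberField.RingOfIntegers.mapRingHom ((a⁻¹ : Gal(L/K)) : L →+* L)).comp
        (NumberField.RingOfIntegers.mapRingHom (a : L →+* L)) = RingHom.id (𝓞 L) := by
      ext x
      exact AlgEquiv.symm_apply_apply a _
    have h1 := congrArg (fun f => I.map f) this
    simp only [← Ideal.map_map, Ideal.map_id] at h1
    rwa [show Ideal.map (NumberField.RingOfIntegers.mapRingHom (a : L →+* L)) I = I from ha] at h1

theorem tHUn (hCap : S_HCap) : S_HUn := by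
  intro K L _ _ _ _ _ _ s hs hInv hcop x hx
  have : IsCyclic Gal(L/K) := ⟨s, hs⟩
  have hnorm := hun_norm s hs x hx
  obtain ⟨ε, hε0, hε⟩ := groupCohomology.exists_mul_galRestrict_of_norm_eq_one (A := 𝓞 K)
    (B := 𝓞 L) hs hnorm
  have hg : galRestrict (𝓞 K) K L (𝓞 L) s ε =
      NumberField.RingOfIntegers.mapRingHom (s : L →+* L) ε := by
    apply NumberField.RingOfIntegers.coe_injective
    rw [algebraMap_galRestrict_apply]
    rfl
  rw [hg] at hε
  have hst : s ∈ hunStab (Ideal.span {ε}) := by
    change Ideal.map _ _ = _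
    rw [Ideal.map_span, Set.image_singleton]
    conv_rhs => rw [← hε]
    rw [Ideal.span_singleton_mul_left_unit x.toMul.isUnit]
  have hall : ∀ t : Gal(L/K),
      (Ideal.span {ε}).map (NumberField.RingOfIntegers.mapRingHom (t : L →+* L)) =
        Ideal.span {ε} := fun t => (Subgroup.zpowers_le.2 hst) (hs t)
  obtain ⟨J, hJ⟩ := hInv (Ideal.span {ε}) (by rwa [Ne, Ideal.span_singleton_eq_bot]) hall
  obtain ⟨c, rfl⟩ := hCap K L hcop J ε hε0 hJ
  rw [Ideal.map_span, Set.image_singleton, Ideal.span_singleton_eq_span_singleton] at hJ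
  obtain ⟨e, he⟩ := hJ
  have hc0 : algebraMap (𝓞 K) (𝓞 L) c ≠ 0 := by
    rintro h
    rw [h, zero_mul] at he
    exact hε0 he.symm
  have hsc : NumberField.RingOfIntegers.mapRingHom (s : L →+* L) (algebraMap (𝓞 K) (𝓞 L) c) =
      algebraMap (𝓞 K) (𝓞 L) c := by
    apply NumberField.RingOfIntegers.coe_injective
    exact s.commutes (c : K)
  rw [← he, map_mul, hsc, mul_left_comm] at hε
  have h1 := mul_left_cancel₀ hc0 hε
  refine ⟨-Additive.ofMul e, ?_⟩
  apply Additive.toMul.injective
  have h2 : x.toMul * (unMap s (Additive.ofMul e)).toMul = e := by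
    ext
    exact congrArg _ h1
  rw [map_neg, neg_sub_neg, toMul_sub, toMul_ofMul]
  exact eq_div_of_mul_eq' h2

end Pool.Agent.FW
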