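import Pool.Agent.Lib.FW.SpecH

/-!
# Part H: the ranks
-/

open scoped Pointwise NumberField

noncomputable section

namespace Pool.Agent.FW

open Pool.Agent.MuZ

private theorem hrk_fin {E : Type} [AddCommGroup E] [Module.Finite ℤ E] (A : AddSubgroup E) :
    Module.Finite ℤ A := by
  have : IsNoetherian ℤ E := isNoetherian_of_isNoetherianRing_of_finite ℤ E
  exact Module.Finite.of_injective (A.subtype.toIntLinearMap) Subtype.val_injective

/-- rank of the kernel plus rank of the range -/
private theorem hrk_add {E F : Type} [AddCommGroup E] [Module.Finite ℤ E] [AddCommGroup F]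
    (f : E →+ F) :
    Module.finrank ℤ E = Module.finrank ℤ f.ker + Module.finrank ℤ f.range := by
  set g : E →ₗ[ℤ] f.range := f.rangeRestrict.toIntLinearMap with hg
  have hgs : Function.Surjective g := f.rangeRestrict_surjective
  set j : f.ker →ₗ[ℤ] E := f.ker.subtype.toIntLinearMap with hj
  have hji : Function.Injective j := Subtype.val_injective
  have h := Submodule.finrank_quotient_add_finrank (LinearMap.ker g)
  have e1 := (g.quotKerEquivOfSurjective hgs).finrank_eq
  have e2 := (LinearEquiv.ofInjective j hji).finrank_eq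
  have e3 : LinearMap.range j = LinearMap.ker g := by
    ext x
    rw [LinearMap.mem_range, LinearMap.mem_ker]
    constructor
    · rintro ⟨y, rfl⟩
      exact Subtype.ext y.2
    · intro hx
      exact ⟨⟨x, congrArg Subtype.val hx⟩, rfl⟩
  rw [e3] at e2
  rw [e2, ← e1, ← h, add_comm]

private theorem hrk_le {E : Type} [AddCommGroup E] [Module.Finite ℤ E] {A B : AddSubgroup E}
    (h : A ≤ B) : Module.finrank ℤ A ≤ Module.finrank ℤ B := by
  have := hrk_fin B
  exact LinearMap.finrank_le_finrank_of_injective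
    (f := (AddSubgroup.inclusion h).toIntLinearMap) (AddSubgroup.inclusion_injective h)

/-- the norm -/
private def hrkN {E : Type} [AddCommGroup E] (p : ℕ) (s : E →+ E) : E →+ E :=
  AddMonoidHom.mk' (fun x => ∑ i ∈ Finset.range p, (s^[i]) x) fun x y => by
    rw [← Finset.sum_add_distrib]
    exact Finset.sum_congr rfl fun i _ => iterate_map_add s i x y

private theorem hrkN_s {E : Type} [AddCommGroup E] {p : ℕ} {s : E →+ E}
    (hs : ∀ x : E, (s^[p]) x = x) (x : E) : s (hrkN p s x) = hrkN p s x := by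
  change s (∑ i ∈ Finset.range p, (s^[i]) x) = ∑ i ∈ Finset.range p, (s^[i]) x
  rw [map_sum]
  have h1 := Finset.sum_range_succ (fun i => (s^[i]) x) p
  have h2 := Finset.sum_range_succ' (fun i => (s^[i]) x) p
  rw [h1, hs x, Function.iterate_zero, id] at h2
  refine Eq.trans ?_ (add_right_cancel h2).symm
  exact Finset.sum_congr rfl fun i _ => (Function.iterate_succ_apply' s i x).symm

private theorem hrkN_s' {E : Type} [AddCommGroup E] {p : ℕ} {s : E →+ E}
    (hs : ∀ x : E, (s^[p]) x = x) (x : E) : hrkN p s (s x) = hrkN p s x := by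
  rw [← hrkN_s hs x]
  change ∑ i ∈ Finset.range p, (s^[i]) (s x) = s (∑ i ∈ Finset.range p, (s^[i]) x)
  rw [map_sum]
  refine Finset.sum_congr rfl fun i _ => ?_
  rw [← Function.iterate_succ_apply, Function.iterate_succ_apply']

private theorem hrkN_fix {E : Type} [AddCommGroup E] {p : ℕ} {s : E →+ E} {x : E} (h : s x = x) :
    hrkN p s x = p • x := by
  change ∑ i ∈ Finset.range p, (s^[i]) x = p • x
  rw [Finset.sum_congr rfl fun i _ => Function.iterate_fixed h i, Finset.sum_const,
    Finset.card_range]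

theorem tHRk (hLem : S_HLem) (hQn : S_HQn) : S_HRk := by
  intro E _ _ p s hp hsp hH
  set N := hrkN p s with hN
  set A : AddSubgroup E := N.ker with hA
  set E0 : AddSubgroup E := (s - AddMonoidHom.id E).ker with hE0
  have hmemE0 : ∀ x, x ∈ E0 ↔ s x = x := fun x => by
    rw [hE0, AddMonoidHom.mem_ker, AddMonoidHom.sub_apply, AddMonoidHom.id_apply, sub_eq_zero]
  have hmemA : ∀ x, x ∈ A ↔ N x = 0 := fun x => AddMonoidHom.mem_ker
  have := hrk_fin A
  have := hrk_fin E0
  -- the restriction of `s`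
  set sA : A →+ A := (s.comp A.subtype).codRestrict A (fun a => by
    rw [hmemA]
    exact (hrkN_s' hsp a.1).trans a.2) with hsA
  have hsAv : ∀ a : A, ((sA a : A) : E) = s a := fun a => rfl
  have hit : ∀ (i : ℕ) (a : A), (((sA^[i]) a : A) : E) = (s^[i]) a := by
    intro i
    induction i with
    | zero => intro a; rfl
    | succ i ih => intro a; rw [Function.iterate_succ_apply', hsAv, ih, Function.iterate_succ_apply']
  obtain ⟨l1, l2, l3⟩ := hLem A p sA hp (fun a => by
    apply Subtype.ext
    rw [AddSubgroup.val_finsetSum]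
    exact (Finset.sum_congr rfl fun i _ => hit i a).trans a.2)
  obtain ⟨n1, n2, n3⟩ := hQn E0 p hp.pos
  -- (1) the kernels
  have hk : Nat.card (sA - AddMonoidHom.id A).ker =
      Nat.card (nsmulAddMonoidHom (α := E0) p).ker := by
    refine Nat.card_congr ⟨fun x => ⟨⟨x.1.1, ?_⟩, ?_⟩, fun y => ⟨⟨y.1.1, ?_⟩, ?_⟩, fun x => rfl,
      fun y => rfl⟩
    · have h := x.2
      rw [AddMonoidHom.mem_ker, AddMonoidHom.sub_apply, AddMonoidHom.id_apply, sub_eq_zero] at h
      exact (hmemE0 _).2 (congrArg Subtype.val h)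
    · have h := x.2
      rw [AddMonoidHom.mem_ker, AddMonoidHom.sub_apply, AddMonoidHom.id_apply, sub_eq_zero] at h
      rw [AddMonoidHom.mem_ker]
      apply Subtype.ext
      have h2 : s x.1.1 = x.1.1 := congrArg Subtype.val h
      change p • x.1.1 = 0
      rw [← hrkN_fix h2]
      exact x.1.2
    · rw [hmemA]
      have h2 : s y.1.1 = y.1.1 := (hmemE0 _).1 y.1.2
      refine (hrkN_fix h2).trans ?_
      exact congrArg Subtype.val (AddMonoidHom.mem_ker.1 y.2)
    · rw [AddMonoidHom.mem_ker, AddMonoidHom.sub_apply, AddMonoidHom.id_apply, sub_eq_zero]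
      apply Subtype.ext
      exact (hmemE0 _).1 y.1.2
  -- (2) the index of `(s - 1) A`
  set d : E →+ A := (s - AddMonoidHom.id E).codRestrict A (fun x => by
    rw [hmemA, AddMonoidHom.sub_apply, AddMonoidHom.id_apply, map_sub]
    exact sub_eq_zero.2 (hrkN_s' hsp x)) with hd
  have hdv : ∀ x : E, ((d x : A) : E) = s x - x := fun x => rfl
  have hds : Function.Surjective d := by
    intro a
    obtain ⟨y, hy⟩ := hH a.1 a.2
    exact ⟨y, Subtype.ext hy.symm⟩
  have hcm : (sA - AddMonoidHom.id A).range.comap d = E0 ⊔ A := by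
    ext x
    rw [AddSubgroup.mem_comap, AddSubgroup.mem_sup]
    constructor
    · rintro ⟨a, ha⟩
      refine ⟨x - a.1, ?_, a.1, a.2, sub_add_cancel x a.1⟩
      have h2 : s a.1 - a.1 = s x - x := congrArg Subtype.val ha
      rw [hmemE0, map_sub]
      rw [sub_eq_sub_iff_add_eq_add] at h2 ⊢
      exact h2.symm.trans (add_comm _ _)
    · rintro ⟨y, hy, z, hz, rfl⟩
      refine ⟨⟨z, hz⟩, ?_⟩
      apply Subtype.ext
      rw [hdv]
      change s z - z = s (y + z) - (y + z)
      rw [map_add, (hmemE0 y).1 hy]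
      abel
  have hidx : (sA - AddMonoidHom.id A).range.index = (E0 ⊔ A).index := by
    rw [← hcm, AddSubgroup.index_comap_of_surjective _ hds]
  -- (3)
  have h3 : (E0.map N).relIndex N.range = (E0 ⊔ A).index := by
    have := AddSubgroup.relIndex_map_map N E0 ⊤
    rwa [← AddMonoidHom.range_eq_map, top_sup_eq, AddSubgroup.relIndex_top_right] at this
  have h4 : (E0.map N).relIndex E0 = (nsmulAddMonoidHom (α := E0) p).range.index := by
    unfold AddSubgroup.relIndex
    congr 1
    ext e
    rw [AddSubgroup.mem_addSubgroupOf, AddSubgroup.mem_map]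
    constructor
    · rintro ⟨y, hy, h⟩
      refine ⟨⟨y, hy⟩, Subtype.ext ?_⟩
      rw [← h]
      exact (hrkN_fix ((hmemE0 y).1 hy)).symm
    · rintro ⟨y, rfl⟩
      exact ⟨y.1, y.2, hrkN_fix ((hmemE0 _).1 y.2)⟩
  have hNE : N.range ≤ E0 := by
    rintro _ ⟨x, rfl⟩
    exact (hmemE0 _).2 (hrkN_s hsp x)
  have h5 : (E0.map N).relIndex N.range * N.range.relIndex E0 = (E0.map N).relIndex E0 :=
    AddSubgroup.relIndex_mul_relIndex _ _ _ (AddSubgroup.map_le_range N E0) hNE
  have h6 : 0 < (nsmulAddMonoidHom (α := E0) p).range.index :=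
    Nat.pos_of_ne_zero n1.index_ne_zero
  have h7 : (sA - AddMonoidHom.id A).range.index ≤
      p ^ Module.finrank ℤ E0 * Nat.card (nsmulAddMonoidHom (α := E0) p).ker := by
    rw [← n3, hidx, ← h3, ← h4]
    rw [← h4] at h6
    exact Nat.le_of_dvd h6 (Dvd.intro _ h5)
  have ht : 0 < Nat.card (nsmulAddMonoidHom (α := E0) p).ker := Nat.card_pos
  have h8 : p ^ Module.finrank ℤ A ≤ p ^ (Module.finrank ℤ E0 * (p - 1)) := by
    refine Nat.le_of_mul_le_mul_right ?_ (pow_pos ht (p - 1))
    rw [hk] at l3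
    rw [← l3, pow_mul, ← mul_pow]
    exact Nat.pow_le_pow_left h7 _
  have h9 := (Nat.pow_le_pow_iff_right hp.one_lt).1 h8
  have h10 := hrk_add N
  have h11 := hrk_le hNE
  have h12 : p * Module.finrank ℤ E0 = Module.finrank ℤ E0 * (p - 1) + Module.finrank ℤ E0 := by
    obtain ⟨m, rfl⟩ : ∃ m, p = m + 1 := ⟨p - 1, by have := hp.pos; omega⟩
    rw [Nat.add_sub_cancel]
    ring
  rw [h10, h12]
  exact add_le_add h9 h11

end Pool.Agent.FW
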